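import Pool.Agent.N773.RI.Main

/-!
# Edwards-Anderson ground states on `ℤ^d`: frozen segments and roughness of interfaces

For iid couplings whose law charges every neighbourhood of `0`, almost surely near every place there
are long straight segments all bonds of which are satisfied in every infinite-volume ground state.
Hence an interface between two ground states cannot separate the long sides of a box of length
`C log n` and height `m`, or of length `n ^ θ` and height `c log n / log log n`.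
-/

set_option autoImplicit false

open MeasureTheory

namespace Pool.Agent.Results.MP_37ff18_mp.FrozenSegments

/-- `σ` is an infinite-volume ground state for the couplings `J`; the bond `(v, i)` joins `v` and
`v + e_i`. Every change at finitely many sites (at least one) increases the energy
`-∑ J_e σ σ` (the sum of the differences over all bonds is a finite sum). -/
def IsGroundState {d : ℕ} (J : (Fin d → ℤ) × Fin d → ℝ) (σ : (Fin d → ℤ) → ℝ) : Prop :=
  (∀ x, σ x = 1 ∨ σ x = -1) ∧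
  ∀ ρ : (Fin d → ℤ) → ℝ, (∀ x, ρ x = 1 ∨ ρ x = -1) → {x | ρ x ≠ σ x}.Finite → ρ ≠ σ →
    0 < ∑ᶠ e : (Fin d → ℤ) × Fin d,
      J e * (σ e.1 * σ (e.1 + (Pi.single e.2 (1 : ℤ) : Fin d → ℤ))
        - ρ e.1 * ρ (e.1 + (Pi.single e.2 (1 : ℤ) : Fin d → ℤ)))

/-- The bond `e` is satisfied in every ground state. -/
def Frozen {d : ℕ} (J : (Fin d → ℤ) × Fin d → ℝ) (e : (Fin d → ℤ) × Fin d) : Prop :=
  ∀ σ : (Fin d → ℤ) → ℝ, IsGroundState J σ →
    0 < J e * (σ e.1 * σ (e.1 + (Pi.single e.2 (1 : ℤ) : Fin d → ℤ)))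

/-- All bonds of the segment of length `L` in the direction `j` which starts at
`x + k e_i` are satisfied in every ground state. -/
def FrozenSegment {d : ℕ} (J : (Fin d → ℤ) × Fin d → ℝ) (x : Fin d → ℤ) (i j : Fin d) (k : ℕ)
    (L : ℝ) : Prop :=
  ∀ y : ℕ, (y : ℝ) + 1 ≤ L → Frozen J (x + Pi.single i (k : ℤ) + Pi.single j (y : ℤ), j)

/-- Let the couplings on the bonds of `ℤ^d` be iid with the atomless law `μ`.

(1) If `μ` charges every neighbourhood of `0`, then for every `m` there is a constant `C` such that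
almost surely, for all large `n`, for every `x` in the box of radius `n` and all directions
`i ≠ j`, one of the segments of length `m` in the direction `j` which start at the points
`x + k e_i`, `0 ≤ k ≤ C log n`, has all its bonds satisfied in every ground state.

(2) If moreover `μ [-ε, ε] ≥ ε ^ A` for some `A` and all small `ε > 0`, then for every `θ > 0` there
is `c > 0` such that the same holds with `0 ≤ k ≤ n ^ θ` and segments of the growing length
`c log n / log log n`. -/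
theorem result (d : ℕ) (μ : Measure ℝ) [IsProbabilityMeasure μ] (hμ : ∀ x, μ {x} = 0) :
    ((∀ ε : ℝ, 0 < ε → 0 < μ {x | |x| ≤ ε}) → ∀ m : ℕ, ∃ C : ℝ,
      ∀ᵐ J ∂(Measure.infinitePi fun _ : (Fin d → ℤ) × Fin d => μ), ∃ n₀ : ℕ, ∀ n : ℕ, n₀ ≤ n →
        ∀ x : Fin d → ℤ, (∀ l, |x l| ≤ n) → ∀ i j : Fin d, i ≠ j →
          ∃ k : ℕ, (k : ℝ) ≤ C * Real.log n ∧ FrozenSegment J x i j k m) ∧
    ∀ A ε₀ : ℝ, 0 < A → 0 < ε₀ →
      (∀ ε : ℝ, 0 < ε → ε ≤ ε₀ → ENNReal.ofReal (ε ^ A) ≤ μ {x | |x| ≤ ε}) →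
      ∀ θ : ℝ, 0 < θ → ∃ c : ℝ, 0 < c ∧
      ∀ᵐ J ∂(Measure.infinitePi fun _ : (Fin d → ℤ) × Fin d => μ), ∃ n₀ : ℕ, ∀ n : ℕ, n₀ ≤ n →
        ∀ x : Fin d → ℤ, (∀ l, |x l| ≤ n) → ∀ i j : Fin d, i ≠ j →
          ∃ k : ℕ, (k : ℝ) ≤ (n : ℝ) ^ θ ∧
            FrozenSegment J x i j k (c * Real.log n / Real.log (Real.log n)) := by
  constructor
  · intro h0 m
    obtain ⟨C, hC⟩ := Pool.Agent.N773.RI.part1 (d := d) μ (hμ 0) h0 m
    refine ⟨C, ?_⟩
    filter_upwards [hC] with J hJ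
    obtain ⟨n₀, hn₀⟩ := hJ
    refine ⟨n₀, fun n hn x hx i j hij => ?_⟩
    obtain ⟨k, hk, h⟩ := hn₀ n hn x hx i j hij
    refine ⟨k, hk, fun y hy σ hσ => h σ hσ y ?_⟩
    have h1 : y + 1 ≤ m := by exact_mod_cast hy
    omega
  · intro A ε₀ hA hε₀ h0 θ hθ
    obtain ⟨c, hc, hC⟩ := Pool.Agent.N773.RI.part2 (d := d) μ (hμ 0) hA hε₀ h0 hθ
    refine ⟨c, hc, ?_⟩
    filter_upwards [hC] with J hJ
    obtain ⟨n₀, hn₀⟩ := hJ
    refine ⟨n₀, fun n hn x hx i j hij => ?_⟩
    obtain ⟨k, hk, h⟩ := hn₀ n hn x hx i j hij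
    exact ⟨k, hk, fun y hy σ hσ => h σ hσ y hy⟩

end Pool.Agent.Results.MP_37ff18_mp.FrozenSegments
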