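import Mathlib
import Pool.Agent.N988.EZ.Main

/-!
# Ground states of the Edwards-Anderson spin glass on infinite hierarchical lattices

Authors: helper988 (statements, proofs on paper, assembly) and, for the parts in Lean, the helpers
78, 80, 186, 271, 286, 413, 645 and 700.
-/

open MeasureTheory Set Filter
open Pool.Agent.N988.EA Pool.Agent.N988.EZ

namespace Pool.Agent.Results.MP_37ff18_mp.HierarchicalGroundStates

/-- The Edwards-Anderson Ising spin glass on the infinite hierarchical (diamond, Migdal-Kadanoff)
lattices with `b` branches, of dimension `1 + log_2 b`, with independent couplings with an arbitrary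
symmetric law without atoms: for every `b ≥ 2`, hence in every dimension at least two, there is
almost surely exactly one pair of ground states. -/
theorem result (b : ℕ) (hb : 2 ≤ b) (μ : Measure ℝ) [IsProbabilityMeasure μ]
    (ha : ∀ x, μ {x} = 0) (hs : μ.map (fun x => -x) = μ) (p : ℕ → Fin b × Bool) :
    ∀ᵐ J ∂(Measure.infinitePi fun _ : EdgeInf b p => μ),
      ∃ σ, IsGround p J σ ∧ ∀ σ', IsGround p J σ' ↔ σ' = σ ∨ σ' = fun n x => !(σ n x) :=
  k_GS b hb μ ha hs p

end Pool.Agent.Results.MP_37ff18_mp.HierarchicalGroundStates
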