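import Pool.Agent.R239.EA.P

/-!
# Edwards-Anderson ground states on `ℤ^d`: paths and numbers of influenced bonds

For iid atomless couplings on the bonds of `ℤ^d`, `d ≥ 2`, almost surely the following holds for
every point `c`. In every coordinate plane through `c` an infinite self-avoiding path of plaquettes,
which starts at `c`, crosses only bonds whose satisfaction is influenced by boundary conditions at
their distance to `c`. For every `r`, at least `r (2 r + 1) ^ (d - 2)` bonds at distance at most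
`2 r + 1` from `c` are influenced by boundary conditions at distance `r`.
-/

set_option autoImplicit false

open MeasureTheory Filter Topology

namespace Pool.Agent.Results.MP_37ff18_mp.InfluencedBonds

/-- Every change of `σ` at sites of the box of radius `r` around `x` only (at least one site)
increases the energy `-∑ J_e σ σ` (the sum of the differences over all bonds is a finite sum; the
bond `(v, i)` joins `v` and `v + e_i`): in this box `σ` is the ground state for the boundary
condition given by its own values outside the box. -/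
def IsGroundStateIn {d : ℕ} (J : (Fin d → ℤ) × Fin d → ℝ) (x : Fin d → ℤ) (r : ℕ)
    (σ : (Fin d → ℤ) → ℝ) : Prop :=
  (∀ y, σ y = 1 ∨ σ y = -1) ∧
  ∀ ρ : (Fin d → ℤ) → ℝ, (∀ y, ρ y = 1 ∨ ρ y = -1) →
    (∀ y, ρ y ≠ σ y → ∀ i, |y i - x i| ≤ r) → ρ ≠ σ →
    0 < ∑ᶠ e : (Fin d → ℤ) × Fin d,
      J e * (σ e.1 * σ (e.1 + (Pi.single e.2 (1 : ℤ) : Fin d → ℤ))
        - ρ e.1 * ρ (e.1 + (Pi.single e.2 (1 : ℤ) : Fin d → ℤ)))

/-- The bond `e = (v, i)` is influenced by boundary conditions at distance `r`: two ground states of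
the box of radius `r` around `v`, for two boundary conditions, disagree on the bond `e`. -/
def Influenced {d : ℕ} (J : (Fin d → ℤ) × Fin d → ℝ) (r : ℕ) (e : (Fin d → ℤ) × Fin d) : Prop :=
  ∃ σ τ : (Fin d → ℤ) → ℝ, IsGroundStateIn J e.1 r σ ∧ IsGroundStateIn J e.1 r τ ∧
    σ e.1 * σ (e.1 + (Pi.single e.2 (1 : ℤ) : Fin d → ℤ)) ≠
      τ e.1 * τ (e.1 + (Pi.single e.2 (1 : ℤ) : Fin d → ℤ))

/-- The point `c + a e_i + b e_j` of the coordinate plane through `c`. -/
def point {d : ℕ} (c : Fin d → ℤ) (i j : Fin d) (q : ℤ × ℤ) : Fin d → ℤ :=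
  c + q.1 • (Pi.single i (1 : ℤ) : Fin d → ℤ) + q.2 • (Pi.single j (1 : ℤ) : Fin d → ℤ)

/-- The bond `e` is one of the four sides of the plaquette (unit square) of the coordinate plane
through `c` with the lower left corner `q`. -/
def IsSide {d : ℕ} (c : Fin d → ℤ) (i j : Fin d) (q : ℤ × ℤ) (e : (Fin d → ℤ) × Fin d) : Prop :=
  e = (point c i j q, i) ∨ e = (point c i j q, j) ∨ e = (point c i j (q.1, q.2 + 1), i) ∨
    e = (point c i j (q.1 + 1, q.2), j)

open Pool.Agent.R239.EA

lemma gi_iff {d : ℕ} {J : (Fin d → ℤ) × Fin d → ℝ} {x : Fin d → ℤ} {n : ℕ}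
    {σ : (Fin d → ℤ) → ℝ} : IsGroundStateIn J x n σ ↔ GI (bx x n) J σ := by
  rw [GI_iff]
  unfold IsGroundStateIn
  simp only [mem_bx']
  rfl

lemma influenced_of {d : ℕ} {J : (Fin d → ℤ) × Fin d → ℝ} {r : ℕ} {e : (Fin d → ℤ) × Fin d}
    (h : IE J e.1 r e) : Influenced J r e := by
  obtain ⟨σ, τ, h1, h2, h3⟩ := h
  rw [edge_iff h1.1 h2.1] at h3
  exact ⟨σ, τ, gi_iff.2 h1, gi_iff.2 h2, h3⟩

lemma point_eq {d : ℕ} (c : Fin d → ℤ) (i j : Fin d) (q : ℤ × ℤ) : point c i j q = pl c i j q := rfl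

lemma side_of {d : ℕ} {c : Fin d → ℤ} {i j : Fin d} {q : ℤ × ℤ} {e : Ed} (h : Sd q e) :
    IsSide c i j q (Pool.Agent.R239.EA.em c i j e) := by
  unfold IsSide
  simp only [point_eq]
  rcases h with h | h | h | h <;> subst h
  · exact Or.inl (by simp [Pool.Agent.R239.EA.em])
  · exact Or.inr (Or.inl (by simp [Pool.Agent.R239.EA.em]))
  · exact Or.inr (Or.inr (Or.inl (by simp [Pool.Agent.R239.EA.em])))
  · exact Or.inr (Or.inr (Or.inr (by simp [Pool.Agent.R239.EA.em])))

lemma em_injective {d : ℕ} (c : Fin d → ℤ) {i j : Fin d} (hij : i ≠ j) :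
    Function.Injective (Pool.Agent.R239.EA.em c i j) := by
  rintro ⟨a, q⟩ ⟨b, q'⟩ h
  unfold Pool.Agent.R239.EA.em at h
  rw [Prod.mk.injEq] at h
  obtain ⟨h1, h2⟩ := h
  have h3 := congrFun h1 i
  have h4 := congrFun h1 j
  simp only at h3 h4
  rw [pl_i c hij, pl_i c hij] at h3
  rw [pl_j c hij, pl_j c hij] at h4
  have h5 : q = q' := Prod.ext (by linarith) (by linarith)
  subst h5
  have h6 : a = b := by
    cases a <;> cases b <;> simp_all
  rw [h6]

/-- Let the couplings on the bonds of `ℤ^d`, `d ≥ 2`, be iid with the atomless law `μ`. Almost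
surely the following holds for all points `c`.

(1) For all directions `i ≠ j` there are distinct plaquettes `q 0 = (0, 0), q 1, q 2, …` of the
coordinate plane through `c` and distinct bonds `e 0, e 1, …` such that `e k` is a common side of
`q k` and `q (k + 1)`, and `e k` is influenced by boundary conditions at distance `r` for every `r`
such that its distance to `c` is at least `r + 2`.

(2) For every `r` at least `r (2 r + 1) ^ (d - 2)` bonds at distance at most `2 r + 1` from `c` are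
influenced by boundary conditions at distance `r`. -/
theorem result (d : ℕ) (hd : 2 ≤ d) (μ : Measure ℝ) [IsProbabilityMeasure μ]
    (hμ : ∀ x, μ {x} = 0) :
    ∀ᵐ J ∂(Measure.infinitePi fun _ : (Fin d → ℤ) × Fin d => μ), ∀ c : Fin d → ℤ,
      (∀ i j : Fin d, i ≠ j → ∃ (q : ℕ → ℤ × ℤ) (e : ℕ → (Fin d → ℤ) × Fin d), q 0 = (0, 0) ∧
        Function.Injective q ∧ Function.Injective e ∧ ∀ k,
          IsSide c i j (q k) (e k) ∧ IsSide c i j (q (k + 1)) (e k) ∧
          ∀ r : ℕ, (∃ a, (r : ℤ) + 2 ≤ |(e k).1 a - c a|) → Influenced J r (e k)) ∧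
      ∀ r : ℕ, ∃ T : Finset ((Fin d → ℤ) × Fin d), T.card = r * (2 * r + 1) ^ (d - 2) ∧
        ∀ e ∈ T, (∀ a, |e.1 a - c a| ≤ 2 * r + 1) ∧ Influenced J r e := by
  filter_upwards [gn_ae (d := d) μ hμ] with J hJ
  intro c
  refine ⟨fun i j hij => ?_, fun r => ?_⟩
  · obtain ⟨p, e, h0, hp, he, h⟩ := path hd hJ c hij
    refine ⟨p, fun k => Pool.Agent.R239.EA.em c i j (e k), h0, hp, (em_injective c hij).comp he, fun k => ?_⟩
    obtain ⟨h1, h2, h3⟩ := h k
    refine ⟨side_of h1, side_of h2, fun r hr => influenced_of (h3 r ?_)⟩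
    by_contra hc
    push Not at hc
    have h4 : nrm ((Pool.Agent.R239.EA.em c i j (e k)).1 - c) ≤ r + 1 := by omega
    rw [nrm_le] at h4
    obtain ⟨a, ha⟩ := hr
    have h5 := h4 a
    rw [Pi.sub_apply] at h5
    push_cast at h5
    linarith
  · obtain ⟨T, hT, h⟩ := many hd hJ c r
    refine ⟨T, hT, fun e he => ?_⟩
    obtain ⟨h1, h2⟩ := h e he
    refine ⟨fun a => ?_, influenced_of h2⟩
    have h3 := (nrm_le.1 h1) a
    rw [Pi.sub_apply] at h3
    push_cast at h3
    exact h3

end Pool.Agent.Results.MP_37ff18_mp.InfluencedBonds
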