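import Pool.Agent.R239.EA.I

/-!
# Edwards-Anderson ground states on `ℤ^d`: no local rule predicts the ground state

Let the couplings on the bonds of `ℤ^d`, `d ≥ 2`, be iid with a symmetric atomless law, and fix a
boundary condition outside a large box. A rule predicts the products `σ x * σ y` of the ground
state of this box on the bonds near a place `w` from the couplings at distance at most `r` from `w`.
Near every point of the bulk there is a place at distance at most `4 r + 3` where the prediction for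
the box of radius `n ≤ r` is wrong with probability at least `(2 n + 1) / (8 (4 r + 3))`, whatever
the rule is.
-/

set_option autoImplicit false

open MeasureTheory Filter Topology

namespace Pool.Agent.Results.MP_37ff18_mp.NoLocalRule

/-- `σ` is the ground state of the box `{x : |x i| ≤ M for all i}` with the boundary condition `η`:
it is equal to `η` outside the box, and every other configuration `ρ` which is equal to `η` outside
the box has a larger energy `-∑ J_e ρ ρ` (the sum of the differences over all bonds is a finite sum;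
the bond `(v, i)` joins `v` and `v + e_i`). -/
def IsGroundState {d : ℕ} (J : (Fin d → ℤ) × Fin d → ℝ) (M : ℕ) (η σ : (Fin d → ℤ) → ℝ) : Prop :=
  (∀ x, σ x = 1 ∨ σ x = -1) ∧ (∀ x, ¬ (∀ i, |x i| ≤ (M : ℤ)) → σ x = η x) ∧
  ∀ ρ : (Fin d → ℤ) → ℝ, (∀ x, ρ x = 1 ∨ ρ x = -1) →
    (∀ x, ¬ (∀ i, |x i| ≤ (M : ℤ)) → ρ x = η x) → ρ ≠ σ →
    0 < ∑ᶠ e : (Fin d → ℤ) × Fin d,
      J e * (σ e.1 * σ (e.1 + (Pi.single e.2 (1 : ℤ) : Fin d → ℤ))
        - ρ e.1 * ρ (e.1 + (Pi.single e.2 (1 : ℤ) : Fin d → ℤ)))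

/-- The rule `F` is local with range `r`: the prediction `F w J e` for the bonds `e` near `w` only
depends on the couplings of the bonds with an end at distance at most `r` from `w` (maximum norm). -/
def IsLocal {d : ℕ} (F : (Fin d → ℤ) → ((Fin d → ℤ) × Fin d → ℝ) → (Fin d → ℤ) × Fin d → ℝ)
    (r : ℕ) : Prop :=
  ∀ (w : Fin d → ℤ) (J J' : (Fin d → ℤ) × Fin d → ℝ),
    (∀ e : (Fin d → ℤ) × Fin d, ((∀ i, |e.1 i - w i| ≤ r) ∨
      ∀ i, |(e.1 + (Pi.single e.2 (1 : ℤ) : Fin d → ℤ)) i - w i| ≤ r) → J e = J' e) →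
    ∀ e, F w J e = F w J' e

/-- At the place `w` the rule is wrong for the couplings `J`: for some bond `(v, i)` with `v` at
distance at most `n` from `w` the prediction is not the product of the spins of the ground state of
the box of radius `M` with boundary condition `η`. -/
def Wrong {d : ℕ} (M : ℕ) (η : (Fin d → ℤ) → ℝ)
    (F : (Fin d → ℤ) → ((Fin d → ℤ) × Fin d → ℝ) → (Fin d → ℤ) × Fin d → ℝ) (n : ℕ)
    (w : Fin d → ℤ) (J : (Fin d → ℤ) × Fin d → ℝ) : Prop :=
  ∃ σ, IsGroundState J M η σ ∧ ∃ e : (Fin d → ℤ) × Fin d, (∀ i, |e.1 i - w i| ≤ n) ∧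
    F w J e ≠ σ e.1 * σ (e.1 + (Pi.single e.2 (1 : ℤ) : Fin d → ℤ))

open Pool.Agent.R239.EA

lemma bg_iff {d : ℕ} {J : (Fin d → ℤ) × Fin d → ℝ} {M : ℕ} {η σ : (Fin d → ℤ) → ℝ} :
    IsGroundState J M η σ ↔ BG M η J σ := by
  unfold IsGroundState BG
  rw [GI_iff]
  simp only [mem_bx', Pi.zero_apply, sub_zero]
  constructor
  · rintro ⟨h1, h2, h3⟩
    refine ⟨⟨h1, fun ρ hρ hρ' hne => h3 ρ hρ (fun x hx => ?_) hne⟩, h2⟩
    by_contra hc
    exact hx (hρ' x (by rw [h2 x hx]; exact hc))
  · rintro ⟨⟨h1, h3⟩, h2⟩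
    refine ⟨h1, h2, fun ρ hρ hρ' hne => h3 ρ hρ (fun x hx => ?_) hne⟩
    by_contra hc
    exact hx ((hρ' x hc).trans (h2 x hc).symm)

lemma loc_iff {d : ℕ} {F : (Fin d → ℤ) → ((Fin d → ℤ) × Fin d → ℝ) → (Fin d → ℤ) × Fin d → ℝ}
    {r : ℕ} : IsLocal F r ↔ Loc F r := by
  unfold IsLocal Loc
  simp only [mem_tb, mem_bx']
  rfl

lemma wrong_iff {d : ℕ} {M : ℕ} {η : (Fin d → ℤ) → ℝ}
    {F : (Fin d → ℤ) → ((Fin d → ℤ) × Fin d → ℝ) → (Fin d → ℤ) × Fin d → ℝ} {n : ℕ}
    {w : Fin d → ℤ} {J : (Fin d → ℤ) × Fin d → ℝ} : Wrong M η F n w J ↔ Er M η F n w J := by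
  unfold Wrong Er
  simp only [bg_iff, nrm_le, Pi.sub_apply]
  rfl

/-- Let the couplings on the bonds of `ℤ^d`, `d ≥ 2`, be iid with the symmetric atomless law `μ`,
and let `η` be a boundary condition for the box of radius `M`. Let `F` be a rule which predicts the
products of the spins of the ground state on the bonds near `w` from the couplings at distance at
most `r` from `w`. Let `n ≤ r` and `2 r + 3 ≤ m (2 n + 1)`. Then, for every point `c` at distance at
least `m (2 n + 1) + r + 1` from the complement of the box, there is a place `w` at distance at most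
`m (2 n + 1)` from `c` such that, with probability (outer measure) at least `1 / (8 m)`, the
prediction is wrong for some bond at distance at most `n` from `w`. With the least `m` this
probability is at least `(2 n + 1) / (8 (2 r + 2 n + 3))`. -/
theorem result (d : ℕ) (hd : 2 ≤ d) (μ : Measure ℝ) [IsProbabilityMeasure μ]
    (hμ : ∀ x, μ {x} = 0) (hsym : μ.map (fun x => -x) = μ)
    (η : (Fin d → ℤ) → ℝ) (hη : ∀ x, η x = 1 ∨ η x = -1) (n r m M : ℕ) (hnr : n ≤ r)
    (hm : 2 * r + 3 ≤ m * (2 * n + 1)) (c : Fin d → ℤ)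
    (hM : ∀ i, |c i| + (m * (2 * n + 1) + r + 1 : ℕ) ≤ M)
    (F : (Fin d → ℤ) → ((Fin d → ℤ) × Fin d → ℝ) → (Fin d → ℤ) × Fin d → ℝ) (hF : IsLocal F r) :
    ∃ w : Fin d → ℤ, (∀ i, |w i - c i| ≤ (m * (2 * n + 1) : ℕ)) ∧
      ENNReal.ofReal (1 / (8 * (m : ℝ))) ≤
        (Measure.infinitePi fun _ : (Fin d → ℤ) × Fin d => μ) {J | Wrong M η F n w J} := by
  classical
  set i : Fin d := ⟨0, by omega⟩ with hi
  set j : Fin d := ⟨1, by omega⟩ with hj
  have hij : i ≠ j := by
    intro h
    have := congrArg Fin.val h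
    simp [hi, hj] at this
  have hm0 : 0 < m := by
    rcases Nat.eq_zero_or_pos m with h | h
    · subst h; omega
    · exact h
  have hM' : nrm c + m * (2 * n + 1) + r + 1 ≤ M := by
    have h0 : nrm c ≤ M - (m * (2 * n + 1) + r + 1) := by
      rw [nrm_le]
      intro a
      have h1 := hM a
      have h2 := abs_nonneg (c a)
      omega
    have h3 := hM i
    have h4 := abs_nonneg (c i)
    omega
  set f : (Fin d → ℤ) → ENNReal := fun w => Lw μ d {J | Er M η F n w J} with hf
  set P : Finset (Fin d → ℤ) := (Finset.range m).biUnion fun l =>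
    {ce n (pa c i j r) i l, ce n (pa c i j r) j l, ce n (pd c i j r) i l, ce n (pb c i j r) j l}
    with hP
  have hPne : P.Nonempty :=
    ⟨ce n (pa c i j r) i 0, Finset.mem_biUnion.2 ⟨0, Finset.mem_range.2 hm0, by simp⟩⟩
  obtain ⟨w, hw, hmax⟩ := P.exists_max_image f hPne
  refine ⟨w, ?_, ?_⟩
  · obtain ⟨l, hl, hwl⟩ := Finset.mem_biUnion.1 hw
    rw [Finset.mem_range] at hl
    have hmul : ((l : ℤ) + 1) * (2 * n + 1) ≤ m * (2 * n + 1) := by
      apply mul_le_mul_of_nonneg_right _ (by positivity)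
      exact_mod_cast hl
    have hl0 : (0 : ℤ) ≤ (l : ℤ) * (2 * n + 1) := by positivity
    have hm' : 2 * (r : ℤ) + 3 ≤ m * (2 * n + 1) := by exact_mod_cast hm
    have hn0 : (0 : ℤ) ≤ n := Nat.cast_nonneg n
    have hr0 : (0 : ℤ) ≤ r := Nat.cast_nonneg r
    have hnr' : (n : ℤ) ≤ r := by exact_mod_cast hnr
    have hji : j ≠ i := hij.symm
    simp only [Finset.mem_insert, Finset.mem_singleton] at hwl
    intro a
    push_cast
    rcases hwl with h | h | h | h <;> subst h <;>
      by_cases hai : a = i <;> by_cases haj : a = j <;>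
      first
        | (exact absurd (hai.symm.trans haj) hij)
        | (simp only [ce, pa, pb, pd, hai, haj, Pi.sub_apply, Pi.add_apply, Pi.smul_apply, u_same,
            u_ne hij, u_ne hji, smul_eq_mul, mul_one, mul_zero, add_zero, sub_zero]
           rw [abs_le]
           constructor <;> nlinarith)
        | (simp only [ce, pa, pb, pd, Pi.sub_apply, Pi.add_apply, Pi.smul_apply, u_ne hai,
            u_ne haj, smul_eq_mul, mul_zero, add_zero, sub_zero, sub_self, abs_zero]
           linarith)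
  · have h1 := local_rule (d := d) μ hd hμ hsym hη hij hnr hm hM' (loc_iff.1 hF) (f w)
      (fun l hl v hv => hmax v (Finset.mem_biUnion.2 ⟨l, Finset.mem_range.2 hl, by
        simpa using hv⟩))
    have h2 : {J | Wrong M η F n w J} = {J | Er M η F n w J} := by
      ext J
      exact wrong_iff
    rw [h2]
    change ENNReal.ofReal (1 / (8 * (m : ℝ))) ≤ f w
    have h3 : ENNReal.ofReal (1 / (8 * (m : ℝ))) = ((8 * m : ℕ) : ENNReal)⁻¹ := by
      rw [one_div, ENNReal.ofReal_inv_of_pos (by positivity)]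
      congr 1
      rw [show (8 * (m : ℝ)) = ((8 * m : ℕ) : ℝ) by push_cast; ring, ENNReal.ofReal_natCast]
    rw [h3]
    have h4 : ((8 * m : ℕ) : ENNReal) ≠ 0 := by
      simp only [ne_eq, Nat.cast_eq_zero]
      omega
    have h5 : ((8 * m : ℕ) : ENNReal) ≠ ⊤ := ENNReal.natCast_ne_top _
    calc ((8 * m : ℕ) : ENNReal)⁻¹ = ((8 * m : ℕ) : ENNReal)⁻¹ * 1 := (mul_one _).symm
      _ ≤ ((8 * m : ℕ) : ENNReal)⁻¹ * (((8 * m : ℕ) : ENNReal) * f w) := by gcongr
      _ = f w := by rw [← mul_assoc, ENNReal.inv_mul_cancel h4 h5, one_mul]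

end Pool.Agent.Results.MP_37ff18_mp.NoLocalRule
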